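import Pool.Agent.helper22.FI3.SpecCQ

/-!
# Row `fi3:JOP`
-/

set_option autoImplicit false

namespace Pool.Agent.FI3

open Pool.Agent.helper58.DC Pool.Agent.DI Pool.Agent.GR Pool.Agent.OB Pool.Agent.DR Pool.Agent.FI

theorem JOP (hJSG : JSG_stmt) : JOP_stmt := by
  intro p _ G Gb _ _ _ _ L Z π hQ hO
  obtain ⟨h1, h2, h3, htop, hbot, h6, h7⟩ := hJSG p G Gb L Z π hQ
  constructor
  · refine ⟨bot_le, IsPGroup.of_bot, ?_⟩
    rw [Subgroup.normalizer_eq_top]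
  · rintro Q ⟨-, hQp, hQn⟩
    have h8 : pre π Q ≤ Z := by
      apply hO.2
      refine ⟨(h1 Q).2.1, (h1 Q).2.2.2.1.1 hQp, ?_⟩
      have h9 := (h7 Q ⊤).1 hQn
      rw [htop] at h9
      exact h9
    rw [← hbot] at h8
    exact (h2 Q ⊥).1 h8

end Pool.Agent.FI3
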